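import Mathlib
import Pool.Agent.LW90.Main

set_option autoImplicit false

namespace Pool.Agent.Results.MP_33f996_nt.BoxWindows

open Finset Pool.Agent.LW90

/-- The exact order of the number of pairs `(y, n)` of a box `(Y, Y + U] × (X, X + V]` such that the
short window `(y, y + H]` contains a prime `p` as in Q1. -/
theorem result : ∃ c C : ℝ, 0 < c ∧ 0 < C ∧ ∀ ε : ℝ, 0 < ε → ∃ X₀ : ℝ, ∀ X V Y U H : ℕ,
    X₀ ≤ X → ε * X ≤ V → V ≤ X → ε * Y ≤ U → U ≤ Y → 2 * (X + V) ≤ Y ^ 2 → Y + U + H ≤ X →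
    1 ≤ H → 2 * H ≤ U →
    c * min 1 (H / Real.log X ^ 2) * (U * V) ≤
      ({t : ℕ × ℕ | Y < t.1 ∧ t.1 ≤ Y + U ∧ X < t.2 ∧ t.2 ≤ X + V ∧
        max 1 (c * (H / Real.log X ^ 2)) ≤
          ({p : ℕ | p.Prime ∧ t.1 < p ∧ p ≤ t.1 + H ∧ Real.sqrt (2 * t.2) < p ∧ p < t.2 ∧
            (2 * t.2 - p).Prime}.ncard : ℝ)}.ncard : ℝ) ∧
    ({t : ℕ × ℕ | Y < t.1 ∧ t.1 ≤ Y + U ∧ X < t.2 ∧ t.2 ≤ X + V ∧
        ∃ p : ℕ, p.Prime ∧ t.1 < p ∧ p ≤ t.1 + H ∧ Real.sqrt (2 * t.2) < p ∧ p < t.2 ∧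
          (2 * t.2 - p).Prime}.ncard : ℝ) ≤ C * min 1 (H / Real.log X ^ 2) * (U * V) := by
  classical
  obtain ⟨c, C, hc, hC, h⟩ := box_count
  refine ⟨c, C, hc, hC, fun ε hε => ?_⟩
  obtain ⟨X₀, h₀⟩ := h ε hε
  refine ⟨X₀, fun X V Y U H hX hV1 hV2 hU1 hU2 hsq hle hH1 hH2 => ?_⟩
  obtain ⟨h1, h2⟩ := h₀ X V Y U H hX ⟨hU1, hU2, hV1, hV2, hsq, hle, hH1, hH2⟩
  have key : ∀ t : ℕ × ℕ, Y < t.1 → t.1 ≤ Y + U → X < t.2 → t.2 ≤ X + V →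
      {p : ℕ | p.Prime ∧ t.1 < p ∧ p ≤ t.1 + H ∧ Real.sqrt (2 * t.2) < p ∧ p < t.2 ∧
        (2 * t.2 - p).Prime} = ((rp H t : Finset ℕ) : Set ℕ) := by
    rintro ⟨y, n⟩ hy1 hy2 hn1 hn2
    ext p
    simp only [Set.mem_setOf_eq, rp, coe_filter, mem_Ioc]
    constructor
    · rintro ⟨a1, a2, a3, -, -, a4⟩
      exact ⟨⟨a2, a3⟩, a1, a4⟩
    · rintro ⟨⟨a2, a3⟩, a1, a4⟩
      dsimp only at hy1 hy2 hn1 hn2 a2 a3
      refine ⟨a1, a2, a3, ?_, by omega, a4⟩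
      rw [Real.sqrt_lt' (by exact_mod_cast a1.pos)]
      have e1 : Y < p := by omega
      have e2 : Y ^ 2 < p ^ 2 := by gcongr
      have e3 : 2 * n < p ^ 2 := by omega
      exact_mod_cast e3
  constructor
  · refine h1.trans ?_
    rw [← Set.ncard_coe_finset]
    have hs : (((BB X V Y U).filter (fun b => max 1 (c * (H / Real.log X ^ 2)) ≤
        ((rp H b).card : ℝ)) : Finset (ℕ × ℕ)) : Set (ℕ × ℕ)) =
        {t : ℕ × ℕ | Y < t.1 ∧ t.1 ≤ Y + U ∧ X < t.2 ∧ t.2 ≤ X + V ∧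
          max 1 (c * (H / Real.log X ^ 2)) ≤
            ({p : ℕ | p.Prime ∧ t.1 < p ∧ p ≤ t.1 + H ∧ Real.sqrt (2 * t.2) < p ∧ p < t.2 ∧
              (2 * t.2 - p).Prime}.ncard : ℝ)} := by
      ext t
      simp only [coe_filter, BB, mem_product, mem_Ioc, Set.mem_setOf_eq]
      constructor
      · rintro ⟨⟨⟨b1, b2⟩, b3, b4⟩, b5⟩
        refine ⟨b1, b2, b3, b4, ?_⟩
        have := key t b1 b2 b3 b4
        rw [this, Set.ncard_coe_finset]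
        exact b5
      · rintro ⟨b1, b2, b3, b4, b5⟩
        have := key t b1 b2 b3 b4
        rw [this, Set.ncard_coe_finset] at b5
        exact ⟨⟨⟨b1, b2⟩, b3, b4⟩, b5⟩
    rw [hs]
  · refine le_trans (le_of_eq ?_) h2
    rw [← Set.ncard_coe_finset]
    have hs : (((BB X V Y U).filter (fun b => (rp H b).Nonempty) : Finset (ℕ × ℕ)) :
        Set (ℕ × ℕ)) = {t : ℕ × ℕ | Y < t.1 ∧ t.1 ≤ Y + U ∧ X < t.2 ∧ t.2 ≤ X + V ∧
        ∃ p : ℕ, p.Prime ∧ t.1 < p ∧ p ≤ t.1 + H ∧ Real.sqrt (2 * t.2) < p ∧ p < t.2 ∧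
          (2 * t.2 - p).Prime} := by
      ext t
      simp only [coe_filter, BB, mem_product, mem_Ioc, Set.mem_setOf_eq]
      constructor
      · rintro ⟨⟨⟨b1, b2⟩, b3, b4⟩, p, b5⟩
        refine ⟨b1, b2, b3, b4, p, ?_⟩
        have h3 : p ∈ ((rp H t : Finset ℕ) : Set ℕ) := b5
        rw [← key t b1 b2 b3 b4] at h3
        exact h3
      · rintro ⟨b1, b2, b3, b4, p, b5⟩
        refine ⟨⟨⟨b1, b2⟩, b3, b4⟩, p, ?_⟩
        have h3 : p ∈ ((rp H t : Finset ℕ) : Set ℕ) := by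
          rw [← key t b1 b2 b3 b4]
          exact b5
        exact h3
    rw [hs]

end Pool.Agent.Results.MP_33f996_nt.BoxWindows
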