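import Mathlib
import Pool.Agent.MPS11.Lower
import Pool.Agent.MPS11.Upper2

set_option autoImplicit false

namespace Pool.Agent.Results.MP_33f996_nt.PrimeSetsOrder

open Pool.Agent.MPS11

/-- How many `n ≤ X` are served by `K` primes of `(√(2n), n)`?

(a) Let `p_1(s), ..., p_K(s)` be distinct primes which do not decrease when `s` increases and
satisfy `s < p_j(s) ≤ s²/4`. Then at least `c X min(K / log X, 1 / log log X)` of the `n ≤ X` are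
such that `p = p_j(⌊√(2n)⌋)` satisfies `√(2n) < p < n` and `2n - p` is prime, for some `j`.

(b) This order cannot be improved for `K ≤ X^(1-ε)`, even for constant functions `p_j`. -/
theorem result : ∃ c C : ℝ, 0 < c ∧ 0 < C ∧
    (∃ X₀ : ℝ, ∀ X K : ℕ, X₀ ≤ X → 1 ≤ K → ∀ p : Fin K → ℕ → ℕ,
      (∀ j s t, X ≤ 400 * s ^ 2 → s ≤ t → t ^ 2 ≤ 2 * X → p j s ≤ p j t) →
      (∀ s, X ≤ 400 * s ^ 2 → s ^ 2 ≤ 2 * X → (∀ i j, i ≠ j → p i s ≠ p j s) ∧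
        ∀ j, (p j s).Prime ∧ s < p j s ∧ 4 * p j s ≤ s ^ 2) →
      c * X * min (K / Real.log X) (1 / Real.log (Real.log X)) ≤
        (((Finset.Icc 1 X).filter (fun n => ∃ j, 2 * n < p j (Nat.sqrt (2 * n)) ^ 2 ∧
          p j (Nat.sqrt (2 * n)) < n ∧ (2 * n - p j (Nat.sqrt (2 * n))).Prime)).card : ℝ)) ∧
    (∀ ε : ℝ, 0 < ε → ε ≤ 1 → ∃ X₀ : ℝ, ∀ X K : ℕ, X₀ ≤ X → (K : ℝ) ≤ (X : ℝ) ^ (1 - ε) →
      ∃ P : Finset ℕ, P.card = K ∧ (∀ p ∈ P, p.Prime ∧ 2 * X < p ^ 2 ∧ 2000 * p ≤ X) ∧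
        (((Finset.Icc 1 X).filter (fun n => ∃ p ∈ P, p < n ∧ (2 * n - p).Prime)).card : ℝ) ≤
          C * X * min (K / Real.log X) (1 / Real.log (Real.log X))) := by
  classical
  obtain ⟨c, X₀, hc, hlow⟩ := lower
  obtain ⟨C, hC, hup⟩ := upper
  refine ⟨c, C, hc, hC, ⟨X₀, fun X K hX hK p hmono hp => ?_⟩, hup⟩
  have hf : Fam X K p :=
    { mono := hmono
      prime := fun j s h1 h2 => ((hp s h1 h2).2 j).1
      gt := fun j s h1 h2 => ((hp s h1 h2).2 j).2.1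
      le := fun j s h1 h2 => ((hp s h1 h2).2 j).2.2
      inj := fun s h1 h2 i j hij => by
        by_contra hne
        exact (hp s h1 h2).1 i j hne hij }
  refine (hlow X K hX hK p hf).trans ?_
  have h1 : (Finset.Icc 1 X).filter (fun n => ∃ j, Nat.sqrt (2 * n) < p j (Nat.sqrt (2 * n)) ∧
      p j (Nat.sqrt (2 * n)) < n ∧ (2 * n - p j (Nat.sqrt (2 * n))).Prime) ⊆
      (Finset.Icc 1 X).filter (fun n => ∃ j, 2 * n < p j (Nat.sqrt (2 * n)) ^ 2 ∧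
        p j (Nat.sqrt (2 * n)) < n ∧ (2 * n - p j (Nat.sqrt (2 * n))).Prime) := by
    intro n hn
    rw [Finset.mem_filter] at hn ⊢
    obtain ⟨hn1, j, hj1, hj2, hj3⟩ := hn
    exact ⟨hn1, j, Nat.sqrt_lt'.1 hj1, hj2, hj3⟩
  exact_mod_cast Finset.card_le_card h1

end Pool.Agent.Results.MP_33f996_nt.PrimeSetsOrder
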