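import Pool.Agent.UW94.MainL

/-! Sums of two primes in short windows around `n`, for the `n` of an interval `(N, N + V]`. -/

set_option autoImplicit false

namespace Pool.Agent.Results.MP_33f996_nt.UpperWindow

open Finset Real

/-- There are absolute constants `c, C, δ > 0` such that for every `ε > 0`, all large `N`, all
`V` with `ε N ≤ V ≤ N` and all real `H ≥ 1`: the sum over `N < n ≤ N + V` of the number of primes
`p` in `(√(2n), n)` with `n - p ≤ H` and `2n - p` prime is at most `C V H / log² N`; at most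
`C V min(1, H / log² N)` of these `n` have such a prime; and if `(1/2 - δ) log N ≤ H ≤ V`, then at
least `c V min(1, H / log² N)` of these `n` have at least `max(1, c H / log² N)` such primes. -/
theorem result : ∃ c C δ : ℝ, 0 < c ∧ 0 < C ∧ 0 < δ ∧ ∀ ε : ℝ, 0 < ε → ∃ N₀ : ℕ, ∀ N V : ℕ,
    N₀ ≤ N → ε * N ≤ V → V ≤ N → ∀ H : ℝ, 1 ≤ H →
    (∑ n ∈ Ioc N (N + V), (Nat.card {p : ℕ // p.Prime ∧ √(2 * (n : ℝ)) < p ∧ p < n ∧
        (n : ℝ) - p ≤ H ∧ (2 * n - p).Prime} : ℝ) ≤ C * (H / Real.log N ^ 2) * V) ∧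
    ((Nat.card {n : ℕ // N < n ∧ n ≤ N + V ∧
        1 ≤ Nat.card {p : ℕ // p.Prime ∧ √(2 * (n : ℝ)) < p ∧ p < n ∧
          (n : ℝ) - p ≤ H ∧ (2 * n - p).Prime}} : ℝ) ≤ C * min 1 (H / Real.log N ^ 2) * V) ∧
    ((1 / 2 - δ) * Real.log N ≤ H → H ≤ V → c * min 1 (H / Real.log N ^ 2) * V ≤
      (Nat.card {n : ℕ // N < n ∧ n ≤ N + V ∧
        1 ≤ Nat.card {p : ℕ // p.Prime ∧ √(2 * (n : ℝ)) < p ∧ p < n ∧
          (n : ℝ) - p ≤ H ∧ (2 * n - p).Prime} ∧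
        c * (H / Real.log N ^ 2) ≤ Nat.card {p : ℕ // p.Prime ∧ √(2 * (n : ℝ)) < p ∧ p < n ∧
          (n : ℝ) - p ≤ H ∧ (2 * n - p).Prime}} : ℝ)) := Pool.Agent.UW94.mainL

end Pool.Agent.Results.MP_33f996_nt.UpperWindow
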