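import Pool.Agent.GWC.Fin

/-! # MP_33f996_nt: the first primes beyond `√(2n)` do not suffice

There is `c > 0` such that for every `ε > 0` and all large `X`, at least `X^(1-ε)` of the `n ≤ X`
have the following property: `2 n - p` is not prime for every prime `p` with
`√(2n) < p ≤ √(2n) + (log n)² (logloglog n)^c`, nor for any of the first
`log n (logloglog n)^c` primes `p` beyond `√(2n)`.

Proof: the modules `Pool.Agent.GWC`. For typical `s` the primes of `(s, s+H]`,
`H = (log s)² (logloglog s)^c`, are covered by one residue class for each prime `3 ≤ r ≤ y`,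
`y = δ log s`: random classes for `r ≤ √y`, then classes for the primes
`q ∈ (y/160^(j+1), y/160^j]`, `I ≤ j < I²`, which contain many survivors at once (first and second
moments of weights supported on the clusters that survive), then one class for each of the few
remaining elements. The Chinese remainder theorem gives at least `s^(1-ε)` such `n` with
`s < √(2n) < s + 1`. (`Pool.Agent.GWC.final` gives this for almost all windows, for the primes up
to the given distance, and for a positive proportion of the windows for the first primes too.)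
-/

namespace Pool.Agent.Results.MP_33f996_nt.WindowsWithoutPrimes

open Pool.Agent.GWC

theorem result : ∃ c : ℝ, 0 < c ∧ ∀ ε : ℝ, 0 < ε → ∃ X₀ : ℕ, ∀ X : ℕ, X₀ ≤ X →
    (X : ℝ) ^ (1 - ε) ≤ Nat.card {n : ℕ // n ≤ X ∧
      (∀ p : ℕ, p.Prime → Real.sqrt (2 * n) < p →
        (p : ℝ) ≤ Real.sqrt (2 * n)
          + (Real.log n) ^ 2 * (Real.log (Real.log (Real.log n))) ^ c →
        ¬ (2 * n - p).Prime) ∧
      (∀ p : ℕ, p.Prime → Real.sqrt (2 * n) < p →
        (Nat.card {q : ℕ // q.Prime ∧ Real.sqrt (2 * n) < q ∧ q ≤ p} : ℝ)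
          ≤ Real.log n * (Real.log (Real.log (Real.log n))) ^ c →
        ¬ (2 * n - p).Prime)} := by
  obtain ⟨c, hc, κ, -, h⟩ := final
  exact ⟨c, hc, fun ε hε => by
    obtain ⟨X₀, hX₀⟩ := h ε hε
    exact ⟨X₀, fun X hX => (hX₀ X hX).2.2⟩⟩

end Pool.Agent.Results.MP_33f996_nt.WindowsWithoutPrimes
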